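import Mathlib

set_option autoImplicit false

namespace Pool.Agent.Results.MP_bb2d27_ag.Exists

/-- Affine automorphisms of `ℝ^m`, the group `GL(m,ℝ) ⋉ ℝ^m`. -/
abbrev Aff (m : ℕ) := (Fin m → ℝ) ≃ᵃ[ℝ] (Fin m → ℝ)

/-- Bieberbach group: isometries (orthogonal linear part), discrete (finitely many elements move
the origin a bounded amount), cocompact, torsion-free. -/
def IsBieberbach {m : ℕ} (Γ : Subgroup (Aff m)) : Prop :=
  (∀ γ ∈ Γ, ∀ x, γ.linear x ⬝ᵥ γ.linear x = x ⬝ᵥ x) ∧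
  (∀ R : ℝ, {γ : Aff m | γ ∈ Γ ∧ ‖γ 0‖ ≤ R}.Finite) ∧
  (∃ R : ℝ, ∀ x, ∃ γ ∈ Γ, ‖γ x‖ ≤ R) ∧
  (∀ γ ∈ Γ, ∀ n : ℕ, 0 < n → γ ^ n = 1 → γ = 1)

/-- `b₁(ℝ^m/Γ) = 0`: `H¹(M;ℝ) = Hom(Γ,ℝ)` vanishes. -/
def BettiOneZero {m : ℕ} (Γ : Subgroup (Aff m)) : Prop :=
  ∀ φ : Γ →* Multiplicative ℝ, ∀ γ, φ γ = 1

/-- A complex structure: `J² = -I` and `J` commutes with the holonomy group. -/
def IsComplexStructure {m : ℕ} (Γ : Subgroup (Aff m)) (J : (Fin m → ℝ) →ₗ[ℝ] (Fin m → ℝ)) : Prop :=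
  (∀ x, J (J x) = -x) ∧ ∀ γ ∈ Γ, ∀ x, J (γ.linear x) = γ.linear (J x)

/-- The orbit relation; `M = ℝ^m/Γ` is its quotient. -/
def orb {m : ℕ} (Γ : Subgroup (Aff m)) : Setoid (Fin m → ℝ) where
  r x y := ∃ γ ∈ Γ, γ x = y
  iseqv := ⟨fun x => ⟨1, Γ.one_mem, rfl⟩,
    fun {x y} ⟨γ, h, e⟩ => ⟨γ⁻¹, Γ.inv_mem h, by rw [← e]; exact γ.symm_apply_apply x⟩,
    fun {x y z} ⟨γ, h, e⟩ ⟨δ, h', e'⟩ => ⟨δ * γ, Γ.mul_mem h' h, by rw [← e', ← e]; rfl⟩⟩

/-- `Aut(M,J)`: bijections of `M` having an affine lift whose differential commutes with `J`. -/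
def AutSet {m : ℕ} (Γ : Subgroup (Aff m)) (J : (Fin m → ℝ) →ₗ[ℝ] (Fin m → ℝ)) :
    Set (Equiv.Perm (Quotient (orb Γ))) :=
  {f | ∃ F : Aff m, (∀ x, f (Quotient.mk _ x) = Quotient.mk _ (F x)) ∧
    ∀ x, F.linear (J x) = J (F.linear x)}

abbrev V := Fin 14 → ℝ
abbrev Z14 := Fin 14 → ℤ

def tt (e : ZMod 2) (k : ZMod 8) (i : Fin 14) : ℕ :=
  (if e = 0 then ((i.val % 7 - 3 : ℕ) : ZMod 8) - k else k - ((i.val % 7 - 3 : ℕ) : ZMod 8)).val

def σ (e : ZMod 2) (k : ZMod 8) (i : Fin 14) : Fin 14 :=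
  if i.val % 7 < 3 then i else ⟨(7 * (i.val / 7) + 3 + tt e k i % 4) % 14, Nat.mod_lt _ (by norm_num)⟩

def s (e : ZMod 2) (k : ZMod 8) (i : Fin 14) : ℤ :=
  if i.val % 7 = 0 then (if k.val % 2 = 0 then 1 else -1)
  else if i.val % 7 = 1 then (if (e.val + k.val) % 2 = 0 then 1 else -1)
  else if i.val % 7 = 2 then (if e = 0 then 1 else -1)
  else if tt e k i < 4 then 1 else -1

def kk (e : ZMod 2) (k k' : ZMod 8) : ZMod 8 := if e = 0 then k + k' else k - k'

theorem σ_mul : ∀ e k e' k' i, σ e' k' (σ e k i) = σ (e + e') (kk e k k') i := by decide +kernel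
theorem s_mul : ∀ e k e' k' i, s e k i * s e' k' (σ e k i) = s (e + e') (kk e k k') i := by
  decide +kernel
theorem σ_0 : ∀ i, σ 0 0 i = i := by decide +kernel
theorem s_0 : ∀ i, s 0 0 i = 1 := by decide +kernel
theorem s_sq : ∀ e k i, s e k i * s e k i = 1 := by decide +kernel
theorem s_pm : ∀ e k i, s e k i = 1 ∨ s e k i = -1 := by decide +kernel
theorem σ_inj : ∀ e k i j, σ e k i = σ e k j → i = j := by decide +kernel
theorem σ_low : ∀ e k, σ e k 0 = 0 ∧ σ e k 1 = 1 ∧ σ e k 2 = 2 := by decide +kernel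
theorem s_two : ∀ e k, s e k 2 = if e = 0 then 1 else -1 := by decide +kernel
theorem inv_k : ∀ (e : ZMod 2) (k : ZMod 8), e + e = 0 ∧ kk e k (kk e 0 (-k) ) = kk e k (kk e 0 (-k)) ∧
    kk e k (if e = 0 then -k else k) = 0 ∧ kk e (if e = 0 then -k else k) k = 0 := by decide +kernel

def lin (e : ZMod 2) (k : ZMod 8) : V →ₗ[ℝ] V where
  toFun x i := (s e k i : ℝ) * x (σ e k i)
  map_add' x y := by funext i; simp [mul_add]
  map_smul' c x := by funext i; simp; ring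

theorem lin_apply (e k x i) : lin e k x i = (s e k i : ℝ) * x (σ e k i) := rfl

theorem lin_lin (e k e' k' x) : lin e k (lin e' k' x) = lin (e + e') (kk e k k') x := by
  funext i; simp only [lin_apply, σ_mul, ← s_mul]; push_cast; ring

theorem lin_0 (x) : lin 0 0 x = x := by funext i; simp [lin_apply, σ_0, s_0]

def linE (e : ZMod 2) (k : ZMod 8) : V ≃ₗ[ℝ] V :=
  LinearEquiv.ofLinear (lin e k) (lin e (if e = 0 then -k else k))
    (LinearMap.ext fun x => by simp [lin_lin, (inv_k e k).1, (inv_k e k).2.2.1, lin_0])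
    (LinearMap.ext fun x => by simp [lin_lin, (inv_k e k).1, (inv_k e k).2.2.2, lin_0])

def E (a : Z14) : ZMod 2 := (a 1 : ZMod 2)
def K (a : Z14) : ZMod 8 := (a 2 : ZMod 8)
def cst (a : Z14) : V := fun i => (a i : ℝ)

noncomputable def g (a : Z14) : Aff 14 :=
  (linE (E a) (K a)).toAffineEquiv.trans (AffineEquiv.constVAdd ℝ V (cst a))

theorem g_apply (a x) : g a x = cst a + lin (E a) (K a) x := rfl
theorem g_lin (a x) : (g a).linear x = lin (E a) (K a) x := rfl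

def act (e : ZMod 2) (k : ZMod 8) (a : Z14) : Z14 := fun i => s e k i * a (σ e k i)
def star (a b : Z14) : Z14 := a + act (E a) (K a) b
def Ev (a : Z14) : Prop := Even (a 0 + a 1 + a 2)

theorem cst_act (e k a) : cst (act e k a) = lin e k (cst a) := by
  funext i; simp [cst, act, lin_apply]
theorem cst_add (a b) : cst (a + b) = cst a + cst b := by funext i; simp [cst]

theorem E_act (e k a) : E (act e k a) = E a := by
  simp only [E, act, (σ_low e k).2.1]
  rcases s_pm e k 1 with h | h <;> rw [h] <;> push_cast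
  · simp
  · generalize ((a 1 : ℤ) : ZMod 2) = z; revert z; decide
theorem K_act (e k a) : K (act e k a) = if e = 0 then K a else -K a := by
  simp only [K, act, (σ_low e k).2.2, s_two]
  split_ifs <;> simp
theorem Ev_act (e k a) (h : Ev a) : Ev (act e k a) := by
  simp only [Ev, act, (σ_low e k).1, (σ_low e k).2.1, (σ_low e k).2.2] at *
  rw [Int.even_iff] at *
  rcases s_pm e k 0 with h0 | h0 <;> rcases s_pm e k 1 with h1 | h1 <;>
    rcases s_pm e k 2 with h2 | h2 <;> rw [h0, h1, h2] <;> omega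
theorem E_add (a b) : E (a + b) = E a + E b := by simp [E]
theorem K_add (a b) : K (a + b) = K a + K b := by simp [K]
theorem Ev_add (a b) (h : Ev a) (h' : Ev b) : Ev (a + b) := by
  simp only [Ev, Pi.add_apply] at *
  rw [Int.even_iff] at *; omega
theorem E_star (a b) : E (star a b) = E a + E b := by rw [star, E_add, E_act]
theorem K_star (a b) : K (star a b) = kk (E a) (K a) (K b) := by
  rw [star, K_add, K_act, kk]; split_ifs <;> ring
theorem Ev_star (a b) (h : Ev a) (h' : Ev b) : Ev (star a b) := Ev_add _ _ h (Ev_act _ _ _ h')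

theorem g_mul (a b) : g a * g b = g (star a b) := by
  ext1 x
  show g a (g b x) = _
  rw [g_apply, g_apply, g_apply, E_star, K_star, map_add, lin_lin, star, cst_add, cst_act, add_assoc]

theorem g_zero : g 0 = 1 := by
  ext1 x
  rw [g_apply]
  have h1 : E 0 = 0 := by simp [E]
  have h2 : K 0 = 0 := by simp [K]
  rw [h1, h2, lin_0]; funext i; simp [cst]

theorem act_act (e k e' k' a) : act e k (act e' k' a) = act (e + e') (kk e k k') a := by
  funext i; simp only [act, σ_mul, ← s_mul]; ring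
theorem act_0 (a) : act 0 0 a = a := by funext i; simp [act, σ_0, s_0]

def Γ : Subgroup (Aff 14) where
  carrier := {γ | ∃ a, Ev a ∧ γ = g a}
  mul_mem' := by
    rintro _ _ ⟨a, ha, rfl⟩ ⟨b, hb, rfl⟩
    exact ⟨star a b, Ev_star _ _ ha hb, g_mul a b⟩
  one_mem' := ⟨0, by simp [Ev], g_zero.symm⟩
  inv_mem' := by
    rintro _ ⟨a, ha, rfl⟩
    refine ⟨act (E a) (if E a = 0 then -K a else K a) (-a), Ev_act _ _ _ ?_, ?_⟩
    · simp only [Ev, Pi.neg_apply] at *
      rw [Int.even_iff] at *; omega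
    · rw [inv_eq_iff_mul_eq_one, g_mul, star, act_act, (inv_k _ (K a)).1, (inv_k _ _).2.2.1, act_0,
        add_neg_cancel, g_zero]

theorem mem_Γ (a) (h : Ev a) : g a ∈ Γ := ⟨a, h, rfl⟩

theorem pow_coord (a : Z14) (i : Fin 14) (h1 : σ (E a) (K a) i = i) (h2 : s (E a) (K a) i = 1)
    (n : ℕ) : (g a ^ n) 0 i = n * a i := by
  induction n with
  | zero => simp
  | succ n ih =>
    rw [pow_succ']
    show g a ((g a ^ n) 0) i = _
    rw [g_apply, Pi.add_apply, lin_apply, h1, h2, ih]; simp [cst]; ring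

theorem s_low : ∀ e k, (s e k 0 = 1 ↔ k.val % 2 = 0) ∧ (s e k 1 = 1 ↔ (e.val + k.val) % 2 = 0) ∧
    (s e k 2 = 1 ↔ e.val = 0) := by decide +kernel

theorem torsionfree (a : Z14) (ha : Ev a) (n : ℕ) (hn : 0 < n) (h : g a ^ n = 1) : a = 0 := by
  have key : ∀ i, σ (E a) (K a) i = i → s (E a) (K a) i = 1 → a i = 0 := by
    intro i h1 h2
    have := pow_coord a i h1 h2 n
    rw [h] at this
    have h3 : (n : ℝ) * a i = 0 := this.symm
    have h4 : (n : ℝ) ≠ 0 := by positivity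
    exact_mod_cast (mul_eq_zero.1 h3).resolve_left h4
  have hE : ((E a).val : ℤ) = a 1 % 2 := ZMod.val_intCast (n := 2) (a 1)
  have hK : ((K a).val : ℤ) = a 2 % 8 := ZMod.val_intCast (n := 8) (a 2)
  have k0 := fun h => key 0 (σ_low _ _).1 ((s_low _ _).1.2 h)
  have k1 := fun h => key 1 (σ_low _ _).2.1 ((s_low _ _).2.1.2 h)
  have k2 := fun h => key 2 (σ_low _ _).2.2 ((s_low _ _).2.2.2 h)
  rw [Ev, Int.even_iff] at ha
  have h1 : a 1 = 0 := by omega
  have h2 : a 2 = 0 := by omega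
  have e0 : E a = 0 := by simp [E, h1]
  have e1 : K a = 0 := by simp [K, h2]
  funext i
  exact key i (by rw [e0, e1, σ_0]) (by rw [e0, e1, s_0])

theorem bieb : IsBieberbach Γ := by
  refine ⟨?_, ?_, ⟨8, ?_⟩, ?_⟩
  · rintro _ ⟨a, -, rfl⟩ x
    have hb : Function.Bijective (σ (E a) (K a)) :=
      Finite.injective_iff_bijective.1 (fun i j => σ_inj _ _ i j)
    simp only [g_lin, dotProduct, lin_apply]
    rw [← hb.sum_comp (fun i => x i * x i)]
    refine Finset.sum_congr rfl fun i _ => ?_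
    have : ((s (E a) (K a) i : ℝ)) * (s (E a) (K a) i : ℝ) = 1 := by exact_mod_cast s_sq _ _ i
    linear_combination (x (σ (E a) (K a) i) * x (σ (E a) (K a) i)) * this
  · intro R
    have hf : (Set.pi Set.univ (fun _ : Fin 14 => Set.Icc (-⌈R⌉) ⌈R⌉)).Finite :=
      Set.Finite.pi (fun _ => Set.finite_Icc _ _)
    refine (hf.image g).subset ?_
    rintro _ ⟨⟨a, -, rfl⟩, h⟩
    refine ⟨a, fun i _ => ?_, rfl⟩
    have h1 := (norm_le_pi_norm (g a 0) i).trans h
    rw [g_apply, map_zero, add_zero, Real.norm_eq_abs, abs_le] at h1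
    have h2 := Int.le_ceil R
    simp only [cst] at h1
    constructor
    · have : ((-⌈R⌉ : ℤ) : ℝ) ≤ a i := by push_cast; linarith [h1.1]
      exact_mod_cast this
    · have : (a i : ℝ) ≤ ((⌈R⌉ : ℤ) : ℝ) := by linarith [h1.2]
      exact_mod_cast this
  · intro x
    let a : Z14 := fun i => -(8 * ⌊x i / 8⌋)
    have e0 : E a = 0 := by
      simp only [E, a]; push_cast
      rw [show (8 : ZMod 2) = 0 by decide]; simp
    have e1 : K a = 0 := by
      simp only [K, a]; push_cast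
      rw [show (8 : ZMod 8) = 0 by decide]; simp
    refine ⟨g a, mem_Γ a (by simp only [Ev, a]; rw [Int.even_iff]; omega), ?_⟩
    rw [g_apply, e0, e1, lin_0, pi_norm_le_iff_of_nonneg (by norm_num)]
    intro i
    have h1 := Int.floor_le (x i / 8)
    have h2 := Int.lt_floor_add_one (x i / 8)
    simp only [cst, a, Pi.add_apply, Real.norm_eq_abs, abs_le]; push_cast
    constructor <;> linarith
  · rintro _ ⟨a, ha, rfl⟩ n hn h
    rw [torsionfree a ha n hn h, g_zero]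

open Classical in
noncomputable def ff (φ : Γ →* Multiplicative ℝ) (a : Z14) : ℝ :=
  if h : Ev a then Multiplicative.toAdd (φ ⟨g a, mem_Γ a h⟩) else 0

theorem ff_star (φ) (a b : Z14) (ha : Ev a) (hb : Ev b) : ff φ (star a b) = ff φ a + ff φ b := by
  rw [ff, ff, ff, dif_pos ha, dif_pos hb, dif_pos (Ev_star _ _ ha hb), ← toAdd_mul, ← map_mul]
  congr 2
  exact Subtype.ext (g_mul a b).symm

def T (t : Z14) : Prop := Ev t ∧ E t = 0 ∧ K t = 0

theorem star_T (t b : Z14) (h : T t) : star t b = t + b := by rw [star, h.2.1, h.2.2, act_0]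
theorem T_act (e k t) (h : T t) : T (act e k t) :=
  ⟨Ev_act _ _ _ h.1, by rw [E_act, h.2.1], by rw [K_act, h.2.2]; simp⟩
theorem T_add (t u) (h : T t) (h' : T u) : T (t + u) :=
  ⟨Ev_add _ _ h.1 h'.1, by rw [E_add, h.2.1, h'.2.1, add_zero], by rw [K_add, h.2.2, h'.2.2, add_zero]⟩

theorem ff_dbl (φ) (a t : Z14) (ha : Ev a) (h : T t) :
    ff φ (t + act (E a) (K a) t) = 2 * ff φ t := by
  have h1 := ff_star φ a t ha h.1
  have h2 := ff_star φ (act (E a) (K a) t) a (T_act _ _ _ h).1 ha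
  rw [star_T _ _ (T_act _ _ _ h), add_comm, ← star, h1] at h2
  rw [← star_T _ _ h, ff_star φ _ _ h.1 (T_act _ _ _ h).1]
  linarith

theorem σ04 : ∀ i, σ 0 4 i = i := by decide +kernel
theorem kill : ∀ i, (1 + s 0 4 i = 0 ∧ 1 + s 0 4 (σ 1 0 i) = 0 ∧ 1 + s 0 4 (σ 0 1 i) = 0 ∧
    1 + s 0 4 (σ 1 0 (σ 0 1 i)) = 0) ∨ (σ 1 0 i = i ∧ σ 0 1 i = i ∧
      (1 + s 1 0 i) * (1 + s 0 1 i) = 0) := by decide +kernel

theorem ff_T (φ) (t : Z14) (h : T t) : ff φ t = 0 := by
  have h1 := ff_dbl φ (Pi.single 2 4) t (by unfold Ev; decide +kernel) h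
  rw [show E (Pi.single 2 4) = 0 by decide +kernel, show K (Pi.single 2 4) = 4 by decide +kernel] at h1
  have hb := T_add _ _ h (T_act 0 4 t h)
  have h2 := ff_dbl φ (Pi.single 0 1 + Pi.single 1 1) _ (by unfold Ev; decide +kernel) hb
  rw [show E (Pi.single 0 1 + Pi.single 1 1) = 1 by decide +kernel,
    show K (Pi.single 0 1 + Pi.single 1 1) = 0 by decide +kernel] at h2
  have hd := T_add _ _ hb (T_act 1 0 _ hb)
  have h3 := ff_dbl φ (Pi.single 0 1 + Pi.single 2 1) _ (by unfold Ev; decide +kernel) hd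
  rw [show E (Pi.single 0 1 + Pi.single 2 1) = 0 by decide +kernel,
    show K (Pi.single 0 1 + Pi.single 2 1) = 1 by decide +kernel] at h3
  have h0 : ff φ 0 = 0 := by
    have := ff_star φ 0 0 (by simp [Ev]) (by simp [Ev])
    rw [star_T 0 0 ⟨by simp [Ev], by simp [E], by simp [K]⟩, add_zero] at this
    linarith
  have hz : (t + act 0 4 t + act 1 0 (t + act 0 4 t)) +
      act 0 1 (t + act 0 4 t + act 1 0 (t + act 0 4 t)) = 0 := by
    funext i
    simp only [Pi.add_apply, act, σ04, Pi.zero_apply]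
    rcases kill i with ⟨a1, a2, a3, a4⟩ | ⟨a1, a2, a3⟩
    · linear_combination (t i) * a1 + s 1 0 i * t (σ 1 0 i) * a2 + s 0 1 i * t (σ 0 1 i) * a3 +
        s 0 1 i * s 1 0 (σ 0 1 i) * t (σ 1 0 (σ 0 1 i)) * a4
    · simp only [a1, a2]
      linear_combination (1 + s 0 4 i) * t i * a3
  rw [hz, h0, h2, h1] at h3
  linarith

theorem betti : BettiOneZero Γ := by
  rintro φ ⟨_, a, ha, rfl⟩
  have e2 : ∀ e : ZMod 2, e + e = 0 := by decide
  have k8 : ∀ k : ZMod 8, ((k + k) + (k + k)) + ((k + k) + (k + k)) = 0 := by decide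
  have h1 := Ev_star _ _ ha ha
  have h2 := Ev_star _ _ h1 h1
  have h3 := Ev_star _ _ h2 h2
  have h4 := Ev_star _ _ h3 h3
  have h5 := ff_T φ _ ⟨h4, by rw [E_star, e2], by
    simp only [K_star, E_star, e2, kk, if_true]; exact k8 _⟩
  rw [ff_star φ _ _ h3 h3, ff_star φ _ _ h2 h2, ff_star φ _ _ h1 h1, ff_star φ _ _ ha ha] at h5
  have h6 : ff φ a = 0 := by linarith
  rw [ff, dif_pos ha] at h6
  exact h6

def τ (i : Fin 14) : Fin 14 := i + 7
def sJ (i : Fin 14) : ℤ := if i.val < 7 then -1 else 1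
theorem τ_facts : ∀ i, τ (τ i) = i ∧ sJ i * sJ (τ i) = -1 := by decide +kernel
theorem τ_comm : ∀ e k i, σ e k (τ i) = τ (σ e k i) ∧ s e k (τ i) = s e k i ∧
    sJ (σ e k i) = sJ i := by decide +kernel

def J0 : V →ₗ[ℝ] V where
  toFun x i := (sJ i : ℝ) * x (τ i)
  map_add' x y := by funext i; simp [mul_add]
  map_smul' c x := by funext i; simp; ring

theorem cx : IsComplexStructure Γ J0 := by
  constructor
  · intro x; funext i
    show (sJ i : ℝ) * ((sJ (τ i) : ℝ) * x (τ (τ i))) = -x i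
    have : (sJ i : ℝ) * (sJ (τ i) : ℝ) = -1 := by exact_mod_cast (τ_facts i).2
    rw [(τ_facts i).1]; linear_combination (x i) * this
  · rintro _ ⟨a, -, rfl⟩ x; funext i
    show (sJ i : ℝ) * ((s _ _ (τ i) : ℝ) * x (σ _ _ (τ i))) =
      (s _ _ i : ℝ) * ((sJ (σ _ _ i) : ℝ) * x (τ (σ _ _ i)))
    rw [(τ_comm _ _ i).1, (τ_comm _ _ i).2.1, (τ_comm _ _ i).2.2]; ring

/-- `√2 = ζ + ζ⁻¹` on the cyclotomic blocks, `0` on the rest. -/
noncomputable def D : V →ₗ[ℝ] V := (1 / 2 : ℝ) • (lin 0 1 + lin 0 7 - lin 0 5 - lin 0 3)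

theorem D_apply (x) : D x = (1 / 2 : ℝ) • (lin 0 1 x + lin 0 7 x - lin 0 5 x - lin 0 3 x) := rfl

def Dv {R : Type} [CommRing R] (x : Fin 14 → R) : Fin 14 → R :=
  ![0, 0, 0, x 4 - x 6, x 3 + x 5, x 4 + x 6, x 5 - x 3,
    0, 0, 0, x 11 - x 13, x 10 + x 12, x 11 + x 13, x 12 - x 10]

theorem σ01 : σ 0 1 = ![0,1,2,6,3,4,5,7,8,9,13,10,11,12] := by decide +kernel
theorem σ05 : σ 0 5 = ![0,1,2,6,3,4,5,7,8,9,13,10,11,12] := by decide +kernel
theorem σ07 : σ 0 7 = ![0,1,2,4,5,6,3,7,8,9,11,12,13,10] := by decide +kernel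
theorem σ03 : σ 0 3 = ![0,1,2,4,5,6,3,7,8,9,11,12,13,10] := by decide +kernel
theorem s01 : s 0 1 = ![-1,-1,1,-1,1,1,1,-1,-1,1,-1,1,1,1] := by decide +kernel
theorem s05 : s 0 5 = ![-1,-1,1,1,-1,-1,-1,-1,-1,1,1,-1,-1,-1] := by decide +kernel
theorem s07 : s 0 7 = ![-1,-1,1,1,1,1,-1,-1,-1,1,1,1,1,-1] := by decide +kernel
theorem s03 : s 0 3 = ![-1,-1,1,-1,-1,-1,1,-1,-1,1,-1,-1,-1,1] := by decide +kernel
theorem s04 : s 0 4 = ![1,1,1,-1,-1,-1,-1,1,1,1,-1,-1,-1,-1] := by decide +kernel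

theorem D_eq (x) : D x = Dv x := by
  funext i
  rw [D_apply]
  simp only [Pi.smul_apply, Pi.sub_apply, Pi.add_apply, lin_apply, σ01, σ05, σ07, σ03, s01, s05,
    s07, s03, smul_eq_mul]
  fin_cases i <;> simp [Dv] <;> ring

theorem D_lin (e k x) : D (lin e k x) = lin e k (D x) := by
  have h : ∀ (e : ZMod 2) (k : ZMod 8), (kk e k 1 = kk 0 1 k ∧ kk e k 7 = kk 0 7 k ∧
      kk e k 5 = kk 0 5 k ∧ kk e k 3 = kk 0 3 k) ∨ (kk e k 1 = kk 0 7 k ∧ kk e k 7 = kk 0 1 k ∧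
      kk e k 5 = kk 0 3 k ∧ kk e k 3 = kk 0 5 k) := by decide +kernel
  simp only [D_apply, map_smul, map_sub, map_add, lin_lin, zero_add, add_zero]
  rcases h e k with ⟨a, b, c, d⟩ | ⟨a, b, c, d⟩ <;> rw [a, b, c, d]
  congr 1; abel

theorem C_lin (e k x) : lin 0 4 (lin e k x) = lin e k (lin 0 4 x) := by
  have h : ∀ (e : ZMod 2) (k : ZMod 8), kk e k 4 = kk 0 4 k := by decide +kernel
  simp only [lin_lin, zero_add, add_zero, h]

noncomputable def U : V ≃ₗ[ℝ] V :=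
  LinearEquiv.ofLinear (LinearMap.id + D) (lin 0 4 + D)
    (LinearMap.ext fun x => by
      funext i
      simp only [LinearMap.comp_apply, LinearMap.add_apply, LinearMap.id_apply, D_eq, Pi.add_apply,
        lin_apply, σ04, s04]
      fin_cases i <;> simp [Dv, lin_apply, σ04, s04] <;> ring)
    (LinearMap.ext fun x => by
      funext i
      simp only [LinearMap.comp_apply, LinearMap.add_apply, LinearMap.id_apply, D_eq, Pi.add_apply,
        lin_apply, σ04, s04]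
      fin_cases i <;> simp [Dv, lin_apply, σ04, s04] <;> ring)

theorem U_apply (x) : U x = x + D x := rfl
theorem U_symm (x) : U.symm x = lin 0 4 x + D x := rfl

theorem cst_Dv (a : Z14) : cst (Dv a) = D (cst a) := by
  rw [D_eq]; funext i; fin_cases i <;> simp [cst, Dv]

theorem Dv_low (a : Z14) : Ev (Dv a) ∧ E (Dv a) = 0 ∧ K (Dv a) = 0 := by
  simp [Ev, E, K, Dv]

theorem U_g (a x) : U (g a x) = g (a + Dv a) (U x) := by
  rw [g_apply, g_apply, E_add, K_add, (Dv_low a).2.1, (Dv_low a).2.2, add_zero, add_zero, U_apply,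
    U_apply, cst_add, cst_Dv, map_add, map_add, D_lin]
  abel

theorem Us_g (a x) : U.symm (g a x) = g (act 0 4 a + Dv a) (U.symm x) := by
  rw [g_apply, g_apply, E_add, K_add, (Dv_low a).2.1, (Dv_low a).2.2, add_zero, add_zero, U_symm,
    U_symm, cst_add, cst_Dv, cst_act, E_act, K_act, if_pos rfl, map_add, map_add, map_add, D_lin,
    C_lin]
  abel

noncomputable def fU : Equiv.Perm (Quotient (orb Γ)) where
  toFun := Quotient.map U (by
    rintro x y ⟨_, ⟨a, ha, rfl⟩, rfl⟩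
    exact ⟨_, mem_Γ _ (Ev_add _ _ ha (Dv_low a).1), (U_g a x).symm⟩)
  invFun := Quotient.map U.symm (by
    rintro x y ⟨_, ⟨a, ha, rfl⟩, rfl⟩
    exact ⟨_, mem_Γ _ (Ev_add _ _ (Ev_act 0 4 _ ha) (Dv_low a).1), (Us_g a x).symm⟩)
  left_inv := by rintro ⟨x⟩; exact congrArg (Quotient.mk _) (U.symm_apply_apply x)
  right_inv := by rintro ⟨x⟩; exact congrArg (Quotient.mk _) (U.apply_symm_apply x)

theorem fU_pow (n : ℕ) (x) : (fU ^ n) (Quotient.mk _ x) = Quotient.mk _ ((U ^ n) x) := by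
  induction n with
  | zero => rfl
  | succ n ih => rw [pow_succ', pow_succ', Equiv.Perm.mul_apply, ih]; rfl

theorem U_pow (n : ℕ) : ∃ a b : ℕ, 0 < a ∧ n ≤ b ∧ ∀ t : ℝ,
    (U ^ n) (Pi.single 3 t) 3 = t * a ∧ (U ^ n) (Pi.single 3 t) 4 = t * b ∧
    (U ^ n) (Pi.single 3 t) 5 = 0 ∧ (U ^ n) (Pi.single 3 t) 6 = -(t * b) := by
  induction n with
  | zero => exact ⟨1, 0, one_pos, le_rfl, fun t => by simp⟩
  | succ n ih =>
    obtain ⟨a, b, ha, hb, h⟩ := ih
    refine ⟨a + 2 * b, a + b, by omega, by omega, fun t => ?_⟩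
    obtain ⟨h3, h4, h5, h6⟩ := h t
    rw [pow_succ', LinearEquiv.mul_apply, U_apply, D_eq]
    generalize (U ^ n) (Pi.single 3 t) = y at *
    simp [Dv, h3, h4, h5, h6]
    refine ⟨by ring, by ring, by ring⟩

theorem fU_ne (n : ℕ) (hn : 0 < n) : fU ^ n ≠ 1 := by
  intro h
  obtain ⟨a, b, -, hb, H⟩ := U_pow n
  have hb0 : (b : ℝ) ≠ 0 := by have : 0 < b := by omega
                               positivity
  obtain ⟨-, h4, -, h6⟩ := H (1 / (2 * b))
  have h1 := fU_pow n (Pi.single 3 (1 / (2 * b)))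
  rw [h] at h1
  obtain ⟨_, ⟨c, -, rfl⟩, hc⟩ := Quotient.exact h1
  rw [← hc, g_apply, Pi.add_apply, lin_apply] at h4 h6
  have hh : 1 / (2 * (b : ℝ)) * b = 1 / 2 := by field_simp
  rw [hh] at h4 h6
  by_cases e : σ (E c) (K c) 4 = 3
  · have e' : σ (E c) (K c) 6 ≠ 3 := fun e' => absurd (σ_inj _ _ _ _ (e.trans e'.symm)) (by decide)
    rw [Pi.single_eq_of_ne e', mul_zero, add_zero] at h6
    have : (2 * c 6 : ℝ) = -1 := by simp only [cst] at h6; linarith
    have : 2 * c 6 = -1 := by exact_mod_cast this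
    omega
  · rw [Pi.single_eq_of_ne e, mul_zero, add_zero] at h4
    have : (2 * c 4 : ℝ) = 1 := by simp only [cst] at h4; linarith
    have : 2 * c 4 = 1 := by exact_mod_cast this
    omega

theorem autinf (J : V →ₗ[ℝ] V) (hJ : IsComplexStructure Γ J) : (AutSet Γ J).Infinite := by
  have hc : ∀ (k : ℕ) x, J (lin 0 (k : ZMod 8) x) = lin 0 (k : ZMod 8) (J x) := by
    intro k x
    have := hJ.2 (g (Pi.single 0 (k : ℤ) + Pi.single 2 (k : ℤ))) (mem_Γ _ (by simp [Ev])) x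
    rw [g_lin, g_lin] at this
    simpa [E, K] using this
  have hU : ∀ x, U (J x) = J (U x) := by
    intro x
    have h1 := hc 1 x
    have h7 := hc 7 x
    have h5 := hc 5 x
    have h3 := hc 3 x
    simp only [Nat.cast_ofNat, Nat.cast_one] at h1 h7 h5 h3
    simp only [U_apply, D_apply, map_add, map_smul, map_sub, h1, h7, h5, h3]
  have hUn : ∀ (n : ℕ) x, (U ^ n) (J x) = J ((U ^ n) x) := by
    intro n
    induction n with
    | zero => intro x; rfl
    | succ n ih => intro x; rw [pow_succ', LinearEquiv.mul_apply, LinearEquiv.mul_apply, ih, hU]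
  have hinj : Function.Injective fun n : ℕ => fU ^ n := by
    rw [injective_pow_iff_not_isOfFinOrder, isOfFinOrder_iff_pow_eq_one]
    rintro ⟨n, hn, h⟩
    exact fU_ne n hn h
  refine Set.infinite_of_injective_forall_mem hinj fun n => ?_
  exact ⟨(U ^ n).toAffineEquiv, fun x => fU_pow n x, fun x => hUn n x⟩

theorem result : ∃ (m : ℕ) (Γ : Subgroup (Aff m)), IsBieberbach Γ ∧ BettiOneZero Γ ∧
    (∃ J, IsComplexStructure Γ J) ∧ ∀ J, IsComplexStructure Γ J → (AutSet Γ J).Infinite :=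
  ⟨14, Γ, bieb, betti, ⟨J0, cx⟩, autinf⟩

end Pool.Agent.Results.MP_bb2d27_ag.Exists
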